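import Mathlib

open Set Real

namespace Pool.Agent.Results.MP_303525_mp.FourTermFails

/-- `E` is a Dirichlet eigenvalue on `[a,b]` of `-u'' + V u = E u` (classical form, for
continuous `V`): there is a nonzero `u` with `u' = v`, `v' = (V - E) u`, `u a = u b = 0`. -/
def IsDirichletEigenvalue (V : ℝ → ℝ) (a b E : ℝ) : Prop :=
  ∃ u v : ℝ → ℝ,
    (∀ x ∈ Icc a b, HasDerivWithinAt u (v x) (Icc a b) x) ∧
    (∀ x ∈ Icc a b, HasDerivWithinAt v ((V x - E) * u x) (Icc a b) x) ∧
    u a = 0 ∧ u b = 0 ∧ ∃ x ∈ Icc a b, u x ≠ 0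

/-! ### General facts -/

lemma const_of_deriv_zero {f : ℝ → ℝ} {a b : ℝ} (hab : a < b)
    (h : ∀ x ∈ Icc a b, HasDerivWithinAt f 0 (Icc a b) x) :
    ∀ x ∈ Icc a b, f x = f a := by
  apply constant_of_derivWithin_zero
  · intro x hx
    exact (h x hx).differentiableWithinAt
  · intro x hx
    exact (h x (Ico_subset_Icc_self hx)).derivWithin (uniqueDiffOn_Icc hab x (Ico_subset_Icc_self hx))

lemma eigenvalue_pos {V : ℝ → ℝ} {a b E : ℝ} (hab : a < b) (hV : ∀ x ∈ Icc a b, 0 < V x)
    (h : IsDirichletEigenvalue V a b E) : 0 < E := by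
  by_contra hE
  push Not at hE
  obtain ⟨u, v, hu, hv, hua, hub, x, hx, hne⟩ := h
  have hw : ∀ x ∈ Icc a b, HasDerivWithinAt (fun y => u y * v y)
      (v x * v x + u x * ((V x - E) * u x)) (Icc a b) x := fun x hx => (hu x hx).mul (hv x hx)
  have hmono : MonotoneOn (fun y => u y * v y) (Icc a b) := by
    apply monotoneOn_of_deriv_nonneg (convex_Icc a b)
    · intro y hy
      exact (hw y hy).continuousWithinAt
    · intro y hy
      rw [interior_Icc] at hy
      exact ((hw y (Ioo_subset_Icc_self hy)).hasDerivAt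
        (Icc_mem_nhds hy.1 hy.2)).differentiableAt.differentiableWithinAt
    · intro y hy
      rw [interior_Icc] at hy
      rw [((hw y (Ioo_subset_Icc_self hy)).hasDerivAt (Icc_mem_nhds hy.1 hy.2)).deriv]
      have h1 := hV y (Ioo_subset_Icc_self hy)
      nlinarith [mul_self_nonneg (v y), mul_nonneg (by linarith : 0 ≤ V y - E) (mul_self_nonneg (u y))]
  have hzero : ∀ y ∈ Icc a b, u y * v y = 0 := by
    intro y hy
    have h1 := hmono (left_mem_Icc.2 hab.le) hy hy.1
    have h2 := hmono hy (right_mem_Icc.2 hab.le) hy.2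
    simp only [hua, hub, zero_mul] at h1 h2
    linarith
  have hd : HasDerivWithinAt (fun y => u y * v y) 0 (Icc a b) x := by
    apply (hasDerivWithinAt_const x (Icc a b) (0 : ℝ)).congr
    · intro y hy
      exact hzero y hy
    · exact hzero x hx
  have := (uniqueDiffOn_Icc hab x hx).eq_deriv _ (hw x hx) hd
  have h1 := hV x hx
  have h2 : 0 < (V x - E) * (u x * u x) :=
    mul_pos (by linarith) (mul_self_pos.2 hne)
  nlinarith [mul_self_nonneg (v x)]

/-! ### The potential `2 / sinh ^ 2` -/

/-- hyperbolic cotangent -/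
noncomputable def coth (y : ℝ) : ℝ := cosh y / sinh y

/-- the potential -/
noncomputable def pot (y : ℝ) : ℝ := 2 / sinh y ^ 2

lemma coth_sq {y : ℝ} (hy : 0 < y) : coth y ^ 2 - 1 = 1 / sinh y ^ 2 := by
  have h : sinh y ≠ 0 := (sinh_pos_iff.2 hy).ne'
  unfold coth
  field_simp
  have := cosh_sq y
  linarith

lemma pot_eq {y : ℝ} (hy : 0 < y) : pot y = 2 * (coth y ^ 2 - 1) := by
  rw [coth_sq hy]
  unfold pot
  ring

lemma hasDerivAt_coth {y : ℝ} (hy : 0 < y) : HasDerivAt coth (-(coth y ^ 2 - 1)) y := by
  have h : sinh y ≠ 0 := (sinh_pos_iff.2 hy).ne'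
  have := (Real.hasDerivAt_cosh y).div (Real.hasDerivAt_sinh y) h
  convert! this using 1
  rw [coth_sq hy]
  have := cosh_sq y
  field_simp
  linarith

lemma coth_gt_one {y : ℝ} (hy : 0 < y) : 1 < coth y := by
  have h : 0 < sinh y := (sinh_pos_iff.2 hy)
  unfold coth
  rw [lt_div_iff₀ h, one_mul]
  have := Real.cosh_sub_sinh y
  have := Real.exp_pos (-y)
  linarith

lemma pot_pos {y : ℝ} (hy : 0 < y) : 0 < pot y := by
  have h : 0 < sinh y := (sinh_pos_iff.2 hy)
  unfold pot
  positivity

lemma convexOn_pot {a b : ℝ} (ha : 0 < a) : ConvexOn ℝ (Icc a b) pot := by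
  -- pot = 2 (coth^2 - 1)
  have hd1 : ∀ y : ℝ, 0 < y → HasDerivAt pot (-4 * (coth y * (coth y ^ 2 - 1))) y := by
    intro y hy
    have h1 : HasDerivAt (fun y => 2 * (coth y ^ 2 - 1)) (2 * (2 * coth y ^ 1 * (-(coth y ^ 2 - 1)))) y := by
      have := (((hasDerivAt_coth hy).pow 2).sub_const 1).const_mul 2
      simpa using this
    have h2 : (fun y => 2 * (coth y ^ 2 - 1)) =ᶠ[nhds y] pot := by
      filter_upwards [lt_mem_nhds hy] with z hz
      exact (pot_eq hz).symm
    have h3 := h2.hasDerivAt_iff.1 h1
    convert! h3 using 1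
    ring
  have hd2 : ∀ y : ℝ, 0 < y → HasDerivAt (fun y => -4 * (coth y * (coth y ^ 2 - 1)))
      (4 * (coth y ^ 2 - 1) * (3 * coth y ^ 2 - 1)) y := by
    intro y hy
    have h0 := hasDerivAt_coth hy
    have h1 := ((h0.mul ((h0.pow 2).sub_const 1)).const_mul (-4))
    convert! h1 using 1
    simp
    ring
  apply convexOn_of_deriv2_nonneg (convex_Icc a b)
  · intro y hy
    exact (hd1 y (lt_of_lt_of_le ha hy.1)).continuousAt.continuousWithinAt
  · intro y hy
    rw [interior_Icc] at hy
    exact (hd1 y (ha.trans hy.1)).differentiableAt.differentiableWithinAt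
  · intro y hy
    rw [interior_Icc] at hy
    have hy0 := ha.trans hy.1
    have h2 : deriv pot =ᶠ[nhds y] (fun y => -4 * (coth y * (coth y ^ 2 - 1))) := by
      filter_upwards [lt_mem_nhds hy0] with z hz
      exact (hd1 z hz).deriv
    exact (h2.differentiableAt_iff.2 (hd2 y hy0).differentiableAt).differentiableWithinAt
  · intro y hy
    rw [interior_Icc] at hy
    have hy0 := ha.trans hy.1
    have h2 : deriv pot =ᶠ[nhds y] (fun y => -4 * (coth y * (coth y ^ 2 - 1))) := by
      filter_upwards [lt_mem_nhds hy0] with z hz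
      exact (hd1 z hz).deriv
    have h3 : deriv^[2] pot y = 4 * (coth y ^ 2 - 1) * (3 * coth y ^ 2 - 1) := by
      show deriv (deriv pot) y = _
      rw [h2.deriv_eq]
      exact (hd2 y hy0).deriv
    rw [h3]
    have := coth_gt_one hy0
    have : 1 < coth y ^ 2 := by nlinarith
    apply mul_nonneg <;> nlinarith

/-! ### Explicit solutions -/

/-- first solution -/
noncomputable def solC (k a y : ℝ) : ℝ := -k * sin (k * (y - a)) - coth y * cos (k * (y - a))
/-- derivative of the first solution -/
noncomputable def solC' (k a y : ℝ) : ℝ :=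
  (coth y ^ 2 - 1 - k ^ 2) * cos (k * (y - a)) + k * coth y * sin (k * (y - a))
/-- second solution -/
noncomputable def solD (k a y : ℝ) : ℝ := k * cos (k * (y - a)) - coth y * sin (k * (y - a))
/-- derivative of the second solution -/
noncomputable def solD' (k a y : ℝ) : ℝ :=
  (coth y ^ 2 - 1 - k ^ 2) * sin (k * (y - a)) - k * coth y * cos (k * (y - a))

lemma hasDerivAt_sin_lin (k a y : ℝ) :
    HasDerivAt (fun y => sin (k * (y - a))) (k * cos (k * (y - a))) y := by
  have h : HasDerivAt (fun y : ℝ => k * (y - a)) k y := by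
    simpa using ((hasDerivAt_id y).sub_const a).const_mul k
  have := h.sin
  convert! this using 1
  ring

lemma hasDerivAt_cos_lin (k a y : ℝ) :
    HasDerivAt (fun y => cos (k * (y - a))) (-(k * sin (k * (y - a)))) y := by
  have h : HasDerivAt (fun y : ℝ => k * (y - a)) k y := by
    simpa using ((hasDerivAt_id y).sub_const a).const_mul k
  have := h.cos
  convert! this using 1
  ring

lemma hasDerivAt_solC (k a : ℝ) {y : ℝ} (hy : 0 < y) :
    HasDerivAt (solC k a) (solC' k a y) y := by
  have h1 := (hasDerivAt_sin_lin k a y).const_mul (-k)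
  have h2 := (hasDerivAt_coth hy).mul (hasDerivAt_cos_lin k a y)
  have := h1.sub h2
  convert! this using 1
  unfold solC'
  ring

lemma hasDerivAt_solD (k a : ℝ) {y : ℝ} (hy : 0 < y) :
    HasDerivAt (solD k a) (solD' k a y) y := by
  have h1 := (hasDerivAt_cos_lin k a y).const_mul k
  have h2 := (hasDerivAt_coth hy).mul (hasDerivAt_sin_lin k a y)
  have := h1.sub h2
  convert! this using 1
  unfold solD'
  ring

lemma hasDerivAt_solC' (k a : ℝ) {y : ℝ} (hy : 0 < y) :
    HasDerivAt (solC' k a) ((pot y - k ^ 2) * solC k a y) y := by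
  have h0 := hasDerivAt_coth hy
  have h1 := (((h0.pow 2).sub_const 1).sub_const (k ^ 2)).mul (hasDerivAt_cos_lin k a y)
  have h2 := (h0.const_mul k).mul (hasDerivAt_sin_lin k a y)
  have := h1.add h2
  convert! this using 1
  rw [pot_eq hy]
  unfold solC
  simp
  ring

lemma hasDerivAt_solD' (k a : ℝ) {y : ℝ} (hy : 0 < y) :
    HasDerivAt (solD' k a) ((pot y - k ^ 2) * solD k a y) y := by
  have h0 := hasDerivAt_coth hy
  have h1 := (((h0.pow 2).sub_const 1).sub_const (k ^ 2)).mul (hasDerivAt_sin_lin k a y)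
  have h2 := (h0.const_mul k).mul (hasDerivAt_cos_lin k a y)
  have := h1.sub h2
  convert! this using 1
  rw [pot_eq hy]
  unfold solD
  simp
  ring

lemma wronskian (k a y : ℝ) :
    solC k a y * solD' k a y - solC' k a y * solD k a y = k * (1 + k ^ 2) := by
  have h := sin_sq_add_cos_sq (k * (y - a))
  unfold solC solD' solC' solD
  linear_combination (k * (1 + k ^ 2)) * h

/-- the characteristic function -/
noncomputable def charF (a b k : ℝ) : ℝ :=
  k * (coth a - coth b) * cos (k * (b - a)) - (k ^ 2 + coth a * coth b) * sin (k * (b - a))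

lemma eigenvalue_iff {a b k : ℝ} (ha : 0 < a) (hab : a < b) (hk : 0 < k) :
    IsDirichletEigenvalue pot a b (k ^ 2) ↔ charF a b k = 0 := by
  have hp := coth_gt_one ha
  constructor
  · rintro ⟨u, v, hu, hv, hua, hub, x, hx, hne⟩
    have hpos : ∀ y ∈ Icc a b, 0 < y := fun y hy => lt_of_lt_of_le ha hy.1
    have hW1 : ∀ y ∈ Icc a b, u y * solC' k a y - v y * solC k a y
        = u a * solC' k a a - v a * solC k a a := by
      apply const_of_deriv_zero (f := fun y => u y * solC' k a y - v y * solC k a y) hab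
      intro y hy
      have h1 := (hu y hy).mul (hasDerivAt_solC' k a (hpos y hy)).hasDerivWithinAt
      have h2 := (hv y hy).mul (hasDerivAt_solC k a (hpos y hy)).hasDerivWithinAt
      convert! h1.sub h2 using 1
      ring
    have hW2 : ∀ y ∈ Icc a b, u y * solD' k a y - v y * solD k a y
        = u a * solD' k a a - v a * solD k a a := by
      apply const_of_deriv_zero (f := fun y => u y * solD' k a y - v y * solD k a y) hab
      intro y hy
      have h1 := (hu y hy).mul (hasDerivAt_solD' k a (hpos y hy)).hasDerivWithinAt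
      have h2 := (hv y hy).mul (hasDerivAt_solD k a (hpos y hy)).hasDerivWithinAt
      convert! h1.sub h2 using 1
      ring
    have hCa : solC k a a = -coth a := by simp [solC]
    have hDa : solD k a a = k := by simp [solD]
    have key : ∀ y ∈ Icc a b, k * (1 + k ^ 2) * u y
        = -(v a * (k * solC k a y + coth a * solD k a y)) := by
      intro y hy
      have e1 := hW1 y hy
      have e2 := hW2 y hy
      have e3 := wronskian k a y
      rw [hua, hCa] at e1
      rw [hua, hDa] at e2
      linear_combination solC k a y * e2 - solD k a y * e1 - u y * e3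
    have hva : v a ≠ 0 := by
      intro h0
      have := key x hx
      rw [h0, zero_mul, neg_zero] at this
      have h3 : k * (1 + k ^ 2) ≠ 0 := by positivity
      exact hne ((mul_eq_zero.1 this).resolve_left h3)
    have hb := key b (right_mem_Icc.2 hab.le)
    rw [hub, mul_zero] at hb
    have hb' : k * solC k a b + coth a * solD k a b = 0 := by
      have : v a * (k * solC k a b + coth a * solD k a b) = 0 := by linarith
      exact (mul_eq_zero.1 this).resolve_left hva
    unfold charF
    unfold solC solD at hb'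
    linear_combination hb'
  · intro hF
    refine ⟨fun y => k * solC k a y + coth a * solD k a y,
      fun y => k * solC' k a y + coth a * solD' k a y, ?_, ?_, ?_, ?_, ?_⟩
    · intro y hy
      have hy0 : 0 < y := lt_of_lt_of_le ha hy.1
      exact (((hasDerivAt_solC k a hy0).const_mul k).add
        ((hasDerivAt_solD k a hy0).const_mul (coth a))).hasDerivWithinAt
    · intro y hy
      have hy0 : 0 < y := lt_of_lt_of_le ha hy.1
      have := (((hasDerivAt_solC' k a hy0).const_mul k).add
        ((hasDerivAt_solD' k a hy0).const_mul (coth a))).hasDerivWithinAt (s := Icc a b)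
      convert! this using 1
      ring
    · simp [solC, solD]
      ring
    · unfold charF at hF
      unfold solC solD
      linear_combination hF
    · by_contra hcon
      push Not at hcon
      have h1 : HasDerivWithinAt (fun y => k * solC k a y + coth a * solD k a y)
          (k * solC' k a a + coth a * solD' k a a) (Icc a b) a :=
        (((hasDerivAt_solC k a ha).const_mul k).add
          ((hasDerivAt_solD k a ha).const_mul (coth a))).hasDerivWithinAt
      have h2 : HasDerivWithinAt (fun y => k * solC k a y + coth a * solD k a y) 0 (Icc a b) a := by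
        apply (hasDerivWithinAt_const a (Icc a b) (0 : ℝ)).congr
        · intro y hy
          exact hcon y hy
        · exact hcon a (left_mem_Icc.2 hab.le)
      have h3 := (uniqueDiffOn_Icc hab a (left_mem_Icc.2 hab.le)).eq_deriv _ h1 h2
      have h4 : k * solC' k a a + coth a * solD' k a a = -(k * (1 + k ^ 2)) := by
        simp [solC', solD']
        ring
      rw [h4] at h3
      have : k * (1 + k ^ 2) ≠ 0 := by positivity
      exact this (by linarith)


/-! ### Counting the eigenvalues -/

/-- the phase function -/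
noncomputable def phase (a b k : ℝ) : ℝ :=
  k * (b - a) - (arctan (k / coth b) - arctan (k / coth a))

lemma charF_eq {a b k : ℝ} (ha : 0 < a) (hab : a < b) :
    charF a b k = -(coth a * coth b * √(1 + (k / coth b) ^ 2) * √(1 + (k / coth a) ^ 2)
      * sin (phase a b k)) := by
  have hp : coth a ≠ 0 := by have := coth_gt_one ha; linarith
  have hq : coth b ≠ 0 := by have := coth_gt_one (ha.trans hab); linarith
  have h1 : √(1 + (k / coth b) ^ 2) ≠ 0 := by positivity
  have h2 : √(1 + (k / coth a) ^ 2) ≠ 0 := by positivity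
  unfold charF phase
  rw [sin_sub, cos_sub, sin_sub, cos_arctan, cos_arctan, sin_arctan, sin_arctan]
  field_simp
  ring

lemma charF_eq_zero_iff {a b k : ℝ} (ha : 0 < a) (hab : a < b) :
    charF a b k = 0 ↔ sin (phase a b k) = 0 := by
  have hp : coth a ≠ 0 := by have := coth_gt_one ha; linarith
  have hq : coth b ≠ 0 := by have := coth_gt_one (ha.trans hab); linarith
  have h1 : √(1 + (k / coth b) ^ 2) ≠ 0 := by positivity
  have h2 : √(1 + (k / coth a) ^ 2) ≠ 0 := by positivity
  rw [charF_eq ha hab]
  simp [hp, hq, h1, h2]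

lemma arctan_diff_le {x y : ℝ} (hxy : x ≤ y) : arctan y - arctan x ≤ y - x := by
  have hm : Monotone (fun t => t - arctan t) := by
    apply monotone_of_deriv_nonneg
    · exact differentiable_id.sub differentiable_arctan
    · intro t
      have h : HasDerivAt (fun t => t - arctan t) (1 - 1 / (1 + t ^ 2)) t :=
        (hasDerivAt_id t).sub (hasDerivAt_arctan t)
      rw [h.deriv]
      have : 1 / (1 + t ^ 2) ≤ 1 := by
        rw [div_le_one (by positivity)]
        nlinarith [sq_nonneg t]
      linarith
  have := hm hxy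
  simp only at this
  linarith

lemma phase_strictMono {a b : ℝ} (ha : 0 < a) (hab : a + 1 < b) : StrictMono (phase a b) := by
  intro x y hxy
  have hp := coth_gt_one ha
  have hq := coth_gt_one (by linarith : 0 < b)
  have h1 : arctan (y / coth b) - arctan (x / coth b) ≤ y / coth b - x / coth b :=
    arctan_diff_le (by gcongr)
  have h2 : arctan (x / coth a) < arctan (y / coth a) := arctan_strictMono (by gcongr)
  have h3 : y / coth b - x / coth b ≤ y - x := by
    rw [← sub_div, div_le_iff₀ (by linarith)]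
    nlinarith
  unfold phase
  nlinarith

lemma phase_zero (a b : ℝ) : phase a b 0 = 0 := by simp [phase]

lemma continuous_phase (a b : ℝ) : Continuous (phase a b) := by
  unfold phase
  fun_prop

lemma exists_phase_eq {a b : ℝ} (ha : 0 < a) (hab : a + 1 < b) (n : ℕ) (hn : 1 ≤ n) :
    ∃ k, 0 < k ∧ phase a b k = n * π := by
  have hn' : (1 : ℝ) ≤ n := by exact_mod_cast hn
  have h1 : phase a b 0 < n * π := by
    rw [phase_zero]
    positivity
  have h2 : n * π ≤ phase a b (n * π + π / 2) := by
    unfold phase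
    have h3 := arctan_lt_pi_div_two ((n * π + π / 2) / coth b)
    have h4 : 0 ≤ arctan ((n * π + π / 2) / coth a) := by
      rw [arctan_nonneg]
      have := coth_gt_one ha
      positivity
    have h5 : n * π + π / 2 ≤ (n * π + π / 2) * (b - a) := by
      apply le_mul_of_one_le_right (by positivity)
      linarith
    linarith
  obtain ⟨k, hk, hk'⟩ := intermediate_value_Icc (by positivity : (0 : ℝ) ≤ n * π + π / 2)
    (continuous_phase a b).continuousOn ⟨h1.le, h2⟩
  refine ⟨k, ?_, hk'⟩
  rcases hk.1.eq_or_lt with h | h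
  · rw [← h] at hk'
    linarith
  · exact h

lemma exists_wavenumbers {a b : ℝ} (ha : 0 < a) (hab : a + 1 < b) :
    ∃ K : ℕ → ℝ, (∀ n, 1 ≤ n → 0 < K n ∧ phase a b (K n) = n * π) := by
  choose! K hK using fun n (hn : 1 ≤ n) => exists_phase_eq ha hab n hn
  exact ⟨K, hK⟩

/-- the full spectrum of `2 / sinh ^ 2` on `[a,b]` -/
lemma spectrum {a b : ℝ} (ha : 0 < a) (hab : a + 1 < b) {K : ℕ → ℝ}
    (hK : ∀ n, 1 ≤ n → 0 < K n ∧ phase a b (K n) = n * π) :
    StrictMonoOn (fun n => K n ^ 2) (Ici 1) ∧
      (fun n => K n ^ 2) '' (Ici 1) = {E | IsDirichletEigenvalue pot a b E} := by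
  have hmono := phase_strictMono ha hab
  have hab' : a < b := by linarith
  constructor
  · intro m hm n hn hmn
    have h1 := hK m hm
    have h2 := hK n hn
    have h3 : K m < K n := by
      rw [← hmono.lt_iff_lt, h1.2, h2.2]
      have : (m : ℝ) < n := by exact_mod_cast hmn
      exact mul_lt_mul_of_pos_right this pi_pos
    exact pow_lt_pow_left₀ h3 h1.1.le (by norm_num)
  · ext E
    simp only [mem_image, mem_ofPred_eq, mem_Ici]
    constructor
    · rintro ⟨n, hn, rfl⟩
      rw [eigenvalue_iff ha hab' (hK n hn).1, charF_eq_zero_iff ha hab', (hK n hn).2]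
      exact sin_nat_mul_pi n
    · intro hE
      have hEpos : 0 < E := eigenvalue_pos hab' (fun x hx => pot_pos (lt_of_lt_of_le ha hx.1)) hE
      have hk : 0 < √E := sqrt_pos.2 hEpos
      have hEk : E = √E ^ 2 := (sq_sqrt hEpos.le).symm
      rw [hEk, eigenvalue_iff ha hab' hk, charF_eq_zero_iff ha hab', sin_eq_zero_iff] at hE
      obtain ⟨n, hn⟩ := hE
      have hpos : 0 < phase a b (√E) := by
        have := hmono hk
        rwa [phase_zero] at this
      have hn0 : 0 < n := by
        rw [← hn] at hpos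
        have h0 : (0 : ℝ) < n := by
          by_contra hcon
          push Not at hcon
          have := mul_nonpos_of_nonpos_of_nonneg hcon pi_pos.le
          linarith
        exact_mod_cast h0
      refine ⟨n.toNat, by omega, ?_⟩
      have hn1 : 1 ≤ n.toNat := by omega
      have h2 := (hK n.toNat hn1).2
      have h3 : ((n.toNat : ℕ) : ℝ) = (n : ℝ) := by
        have : ((n.toNat : ℕ) : ℤ) = n := Int.toNat_of_nonneg hn0.le
        exact_mod_cast this
      rw [h3, hn] at h2
      rw [hmono.injective h2, ← hEk]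

/-! ### Numerical estimates -/

lemma arctan_upper5 {x : ℝ} (hx : 0 ≤ x) : arctan x ≤ x - x ^ 3 / 3 + x ^ 5 / 5 := by
  have hm : Monotone (fun t : ℝ => t - t ^ 3 / 3 + t ^ 5 / 5 - arctan t) := by
    have h : ∀ t : ℝ, HasDerivAt (fun t : ℝ => t - t ^ 3 / 3 + t ^ 5 / 5 - arctan t)
        (1 - t ^ 2 + t ^ 4 - 1 / (1 + t ^ 2)) t := by
      intro t
      have := ((((hasDerivAt_id t).sub ((hasDerivAt_pow 3 t).div_const 3)).add
        ((hasDerivAt_pow 5 t).div_const 5)).sub (hasDerivAt_arctan t))
      convert! this using 1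
      norm_num
    apply monotone_of_deriv_nonneg
    · intro t
      exact (h t).differentiableAt
    · intro t
      rw [(h t).deriv]
      have : 1 - t ^ 2 + t ^ 4 - 1 / (1 + t ^ 2) = t ^ 6 / (1 + t ^ 2) := by
        field_simp
        ring
      rw [this]
      positivity
  have := hm hx
  simp only [arctan_zero] at this
  norm_num at this
  linarith

lemma arctan_lower3 {x : ℝ} (hx : 0 ≤ x) : x - x ^ 3 / 3 ≤ arctan x := by
  have hm : Monotone (fun t : ℝ => arctan t - (t - t ^ 3 / 3)) := by
    have h : ∀ t : ℝ, HasDerivAt (fun t : ℝ => arctan t - (t - t ^ 3 / 3))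
        (1 / (1 + t ^ 2) - (1 - t ^ 2)) t := by
      intro t
      have := (hasDerivAt_arctan t).sub ((hasDerivAt_id t).sub ((hasDerivAt_pow 3 t).div_const 3))
      convert! this using 1
      norm_num
    apply monotone_of_deriv_nonneg
    · intro t
      exact (h t).differentiableAt
    · intro t
      rw [(h t).deriv]
      have : 1 / (1 + t ^ 2) - (1 - t ^ 2) = t ^ 4 / (1 + t ^ 2) := by
        field_simp
        ring
      rw [this]
      positivity
  have := hm hx
  simp only [arctan_zero] at this
  norm_num at this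
  linarith

lemma arctan_upper1 {x : ℝ} (hx : 0 ≤ x) : arctan x ≤ x := by
  have := arctan_diff_le hx
  simp only [arctan_zero] at this
  linarith

lemma arctan_reduce {x : ℝ} (hx : 0 ≤ x) :
    arctan x = π / 4 - arctan ((1 - x) / (1 + x)) := by
  have h : arctan ((1 - x) / (1 + x)) + arctan x = arctan 1 := by
    rw [arctan_add]
    · congr 1
      have h1 : 1 + x ≠ 0 := by positivity
      have h2 : 1 - (1 - x) / (1 + x) * x ≠ 0 := by
        have : 1 - (1 - x) / (1 + x) * x = (1 + x ^ 2) / (1 + x) := by
          field_simp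
          ring
        rw [this]
        positivity
      rw [div_eq_iff h2]
      field_simp
      ring
    · rw [div_mul_eq_mul_div, div_lt_one (by positivity)]
      nlinarith [sq_nonneg x]
  rw [arctan_one] at h
  linarith

/-- left endpoint, chosen with `coth = 20` -/
noncomputable def aa : ℝ := log (21 / 19) / 2
/-- right endpoint -/
noncomputable def bb : ℝ := aa + 14

lemma aa_pos : 0 < aa := by
  unfold aa
  have : 0 < log (21 / 19 : ℝ) := log_pos (by norm_num)
  linarith

lemma coth_eq_exp {y : ℝ} (hy : 0 < y) : coth y = 1 + 2 / (exp (2 * y) - 1) := by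
  have h1 : exp (2 * y) = exp y * exp y := by rw [← exp_add]; ring_nf
  have h2 : 1 < exp y := by rw [← exp_zero]; exact exp_lt_exp.2 hy
  have h3 : exp y * exp y - 1 ≠ 0 := by nlinarith
  have h4 : exp y ≠ 0 := (exp_pos y).ne'
  unfold coth
  rw [cosh_eq, sinh_eq, exp_neg, h1]
  have h5 : exp y - (exp y)⁻¹ ≠ 0 := by
    have : exp y - (exp y)⁻¹ = (exp y * exp y - 1) / exp y := by field_simp
    rw [this]
    exact div_ne_zero h3 h4
  have h6 : exp y ^ 2 - 1 ≠ 0 := by rw [sq]; exact h3
  field_simp
  ring

lemma coth_aa : coth aa = 20 := by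
  rw [coth_eq_exp aa_pos]
  have : exp (2 * aa) = 21 / 19 := by
    unfold aa
    rw [mul_div_cancel₀ _ (by norm_num : (2 : ℝ) ≠ 0), exp_log (by norm_num)]
  rw [this]
  norm_num

lemma coth_bb_le : coth bb ≤ 1 + 1 / 10 ^ 6 := by
  have hb : 0 < bb := by have := aa_pos; unfold bb; linarith
  rw [coth_eq_exp hb]
  have h1 : exp (2 * bb) ≥ 2 ^ 28 := by
    have h2 : exp (28 : ℝ) ≤ exp (2 * bb) := by
      apply exp_le_exp.2
      have := aa_pos
      unfold bb
      linarith
    have h3 : exp (28 : ℝ) = exp 1 ^ 28 := by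
      rw [← exp_nat_mul]
      norm_num
    have h4 : (2 : ℝ) ^ 28 ≤ exp 1 ^ 28 := by
      apply pow_le_pow_left₀ (by norm_num)
      have := exp_one_gt_d9
      linarith
    linarith
  have h5 : 2 / (exp (2 * bb) - 1) ≤ 1 / 10 ^ 6 := by
    rw [div_le_div_iff₀ (by norm_num at h1 ⊢; linarith) (by norm_num)]
    norm_num at h1 ⊢
    linarith
  linarith

lemma phase_ge {k : ℝ} (hk : 0 ≤ k) : k * 14 - (arctan k - arctan (k / 20)) ≤ phase aa bb k := by
  have hb : 0 < bb := by have := aa_pos; unfold bb; linarith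
  have hq := coth_gt_one hb
  have h1 : arctan (k / coth bb) ≤ arctan k := arctan_mono (div_le_self hk hq.le)
  unfold phase
  rw [coth_aa]
  have : bb - aa = 14 := by unfold bb; ring
  rw [this]
  linarith

lemma phase_le {k : ℝ} (hk : 0 ≤ k) :
    phase aa bb k ≤ k * 14 - (arctan k - k / 10 ^ 6 - arctan (k / 20)) := by
  have hb : 0 < bb := by have := aa_pos; unfold bb; linarith
  have hq := coth_gt_one hb
  have hq' := coth_bb_le
  have h1 : arctan k - arctan (k / coth bb) ≤ k - k / coth bb :=
    arctan_diff_le (div_le_self hk hq.le)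
  have h2 : k - k / coth bb ≤ k / 10 ^ 6 := by
    have h3 : k / (1 + 1 / 10 ^ 6) ≤ k / coth bb := by gcongr
    have h4 : k - k / (1 + 1 / 10 ^ 6) ≤ k / 10 ^ 6 := by
      norm_num
      linarith
    linarith
  unfold phase
  rw [coth_aa]
  have : bb - aa = 14 := by unfold bb; ring
  rw [this]
  linarith

/-- The four-term inequality for normalized Dirichlet eigenvalues fails at `i = 1` for the
convex potential `2 / sinh ^ 2` on a suitable bounded interval. -/
theorem result : ∃ (a b : ℝ) (V : ℝ → ℝ) (lam : ℕ → ℝ),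
    a < b ∧ ContinuousOn V (Icc a b) ∧ ConvexOn ℝ (Icc a b) V ∧ (∀ x ∈ Icc a b, 0 ≤ V x) ∧
    StrictMonoOn lam (Ici 1) ∧ lam '' (Ici 1) = {E | IsDirichletEigenvalue V a b E} ∧
    lam 1 / 1 ^ 2 + lam 4 / 4 ^ 2 < lam 2 / 2 ^ 2 + lam 3 / 3 ^ 2 := by
  have ha := aa_pos
  have hab : aa + 1 < bb := by unfold bb; linarith
  obtain ⟨K, hK⟩ := exists_wavenumbers ha hab
  have hmono := phase_strictMono ha hab
  obtain ⟨hs1, hs2⟩ := spectrum ha hab hK
  have hpi1 := pi_gt_d6
  have hpi2 := pi_lt_d6
  refine ⟨aa, bb, pot, fun n => K n ^ 2, by linarith, ?_, convexOn_pot ha, ?_, hs1, hs2, ?_⟩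
  · intro y hy
    have hy0 : 0 < y := lt_of_lt_of_le ha hy.1
    have h : sinh y ≠ 0 := (sinh_pos_iff.2 hy0).ne'
    have : ContinuousAt pot y := by
      unfold pot
      apply ContinuousAt.div continuousAt_const
      · exact (continuous_sinh.pow 2).continuousAt
      · positivity
    exact this.continuousWithinAt
  · intro x hx
    exact (pot_pos (lt_of_lt_of_le ha hx.1)).le
  · have h1 := hK 1 (by norm_num)
    have h2 := hK 2 (by norm_num)
    have h3 := hK 3 (by norm_num)
    have h4 := hK 4 (by norm_num)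
    have b1 : K 1 ≤ 3.366 / 14 := by
      rw [← hmono.le_iff_le, h1.2]
      have e1 := phase_ge (k := 3.366 / 14) (by norm_num)
      have e2 := arctan_upper5 (x := 3.366 / 14) (by norm_num)
      have e3 := arctan_lower3 (x := 3.366 / 14 / 20) (by norm_num)
      norm_num at e1 e2 e3 ⊢
      linarith
    have b4 : K 4 ≤ 13.28 / 14 := by
      rw [← hmono.le_iff_le, h4.2]
      have e1 := phase_ge (k := 13.28 / 14) (by norm_num)
      have e2 := arctan_reduce (x := 13.28 / 14) (by norm_num)
      have e4 := arctan_lower3 (x := (1 - 13.28 / 14) / (1 + 13.28 / 14)) (by norm_num)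
      have e3 := arctan_lower3 (x := 13.28 / 14 / 20) (by norm_num)
      norm_num at e1 e2 e3 e4 ⊢
      linarith
    have b2 : 6.705 / 14 ≤ K 2 := by
      rw [← hmono.le_iff_le, h2.2]
      have e1 := phase_le (k := 6.705 / 14) (by norm_num)
      have e2 := arctan_reduce (x := 6.705 / 14) (by norm_num)
      have e4 := arctan_upper5 (x := (1 - 6.705 / 14) / (1 + 6.705 / 14)) (by norm_num)
      have e3 := arctan_upper1 (x := 6.705 / 14 / 20) (by norm_num)
      norm_num at e1 e2 e3 e4 ⊢
      linarith
    have b3 : 10.008 / 14 ≤ K 3 := by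
      rw [← hmono.le_iff_le, h3.2]
      have e1 := phase_le (k := 10.008 / 14) (by norm_num)
      have e2 := arctan_reduce (x := 10.008 / 14) (by norm_num)
      have e4 := arctan_upper5 (x := (1 - 10.008 / 14) / (1 + 10.008 / 14)) (by norm_num)
      have e3 := arctan_upper1 (x := 10.008 / 14 / 20) (by norm_num)
      norm_num at e1 e2 e3 e4 ⊢
      linarith
    have c1 : K 1 ^ 2 ≤ (3.366 / 14) ^ 2 := pow_le_pow_left₀ h1.1.le b1 2
    have c4 : K 4 ^ 2 ≤ (13.28 / 14) ^ 2 := pow_le_pow_left₀ h4.1.le b4 2
    have c2 : (6.705 / 14) ^ 2 ≤ K 2 ^ 2 := pow_le_pow_left₀ (by norm_num) b2 2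
    have c3 : (10.008 / 14) ^ 2 ≤ K 3 ^ 2 := pow_le_pow_left₀ (by norm_num) b3 2
    simp only
    norm_num at c1 c2 c3 c4 ⊢
    linarith

end Pool.Agent.Results.MP_303525_mp.FourTermFails
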